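import Mathlib

/-!
# Association of workload differences in the GI/GI/k queue fails for every `k ≥ 2`

There are `m + 1` servers (`k = m + 1`).  The example: all services last `1`, and the
interarrival time is `1 / k` or `1`, each with probability `1 / 2`.
-/

open MeasureTheory Filter Topology

namespace Pool.Agent.Results.MP_d464c7_pr.NotAssociated

/-- The rearrangement of a vector in nondecreasing order. -/
noncomputable def rearr {k : ℕ} (x : Fin k → ℝ) : Fin k → ℝ := x ∘ Tuple.sort x

/-- `V = ℜ(W₁ + S, W₂, …, W_k)`, where `k = m + 1` and the first server has index `0`. -/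
noncomputable def afterArrival {m : ℕ} (w : Fin (m + 1) → ℝ) (s : ℝ) : Fin (m + 1) → ℝ :=
  rearr (Function.update w 0 (w 0 + s))

/-- The next workload vector `i ↦ (V i - T)₊`, as a function of `(W, S, T)`. -/
noncomputable def next {m : ℕ} (p : (Fin (m + 1) → ℝ) × ℝ × ℝ) : Fin (m + 1) → ℝ :=
  fun i => max (afterArrival p.1 p.2.1 i - p.2.2) 0

/-- The law of `W_(n+1)` when `W_(n)` has law `π`, with `W_(n)`, `S_n ∼ μS`, `T_n ∼ μT`
independent. -/
noncomputable def stepLaw {m : ℕ} (μS μT : Measure ℝ) (π : Measure (Fin (m + 1) → ℝ)) :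
    Measure (Fin (m + 1) → ℝ) :=
  (π.prod (μS.prod μT)).map next

/-- `π` is the stationary law of the workload vector: it is an invariant probability law, and
the laws of `W_(n)` started from the empty system converge weakly to it. -/
structure IsStationary {m : ℕ} (μS μT : Measure ℝ) (π : Measure (Fin (m + 1) → ℝ)) : Prop where
  prob : IsProbabilityMeasure π
  invariant : stepLaw μS μT π = π
  limit : ∀ f : BoundedContinuousFunction (Fin (m + 1) → ℝ) ℝ,
    Tendsto (fun n : ℕ => ∫ w, f w ∂((stepLaw μS μT)^[n] (Measure.dirac 0))) atTop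
      (𝓝 (∫ w, f w ∂π))

/-- The family `V₁, V₂ - V₁, …, V_k - V₁, -T` (with `k = m + 1`), as a function of
`(W, S, T)`. -/
noncomputable def family {m : ℕ} (p : (Fin (m + 1) → ℝ) × ℝ × ℝ) : Fin (m + 2) → ℝ :=
  Fin.snoc (α := fun _ => ℝ)
    (fun i : Fin (m + 1) => if i = 0 then afterArrival p.1 p.2.1 0
      else afterArrival p.1 p.2.1 i - afterArrival p.1 p.2.1 0) (-p.2.2)

/-- A finite family `X` of random variables on `(Ω, P)` is associated. -/
def Associated {Ω : Type} [MeasurableSpace Ω] (P : Measure Ω) {n : ℕ} (X : Ω → Fin n → ℝ) :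
    Prop :=
  ∀ f g : (Fin n → ℝ) → ℝ, Measurable f → Measurable g →
    (∃ C : ℝ, ∀ x, |f x| ≤ C) → (∃ C : ℝ, ∀ x, |g x| ≤ C) → Monotone f → Monotone g →
    0 ≤ (∫ ω, f (X ω) * g (X ω) ∂P) - (∫ ω, f (X ω) ∂P) * (∫ ω, g (X ω) ∂P)

/-! ### Measurability -/

theorem measurable_rearr {k : ℕ} : Measurable (rearr (k := k)) := by
  intro s hs
  have h : rearr ⁻¹' s = ⋃ σ : Equiv.Perm (Fin k),
      ({x | Tuple.sort x = σ} ∩ (fun x : Fin k → ℝ => x ∘ σ) ⁻¹' s) := by
    ext x
    simp [rearr]
  rw [h]
  refine MeasurableSet.iUnion fun σ => MeasurableSet.inter ?_ ?_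
  · have h2 : {x : Fin k → ℝ | Tuple.sort x = σ} =
        {x | Monotone (x ∘ σ) ∧ ∀ i j, i < j → x (σ i) = x (σ j) → σ i < σ j} := by
      ext x
      simp only [Set.mem_ofPred_eq]
      rw [← Tuple.eq_sort_iff]
      exact eq_comm
    rw [h2]
    have h3 : {x : Fin k → ℝ | Monotone (x ∘ σ) ∧
        ∀ i j, i < j → x (σ i) = x (σ j) → σ i < σ j} =
        (⋂ i : Fin k, ⋂ j : Fin k, {x | i ≤ j → x (σ i) ≤ x (σ j)}) ∩
        (⋂ i : Fin k, ⋂ j : Fin k, {x | i < j → x (σ i) = x (σ j) → σ i < σ j}) := by
      ext x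
      simp only [Set.mem_ofPred_eq, Set.mem_inter_iff, Set.mem_iInter]
      constructor
      · rintro ⟨h1, h2⟩
        exact ⟨fun i j hij => h1 hij, h2⟩
      · rintro ⟨h1, h2⟩
        exact ⟨fun i j hij => h1 i j hij, h2⟩
    rw [h3]
    refine MeasurableSet.inter ?_ ?_
    · refine MeasurableSet.iInter fun i => MeasurableSet.iInter fun j => ?_
      by_cases hij : i ≤ j
      · simp only [hij, true_implies]
        exact measurableSet_le (measurable_pi_apply _) (measurable_pi_apply _)
      · simp only [hij, false_implies, Set.ofPred_true, MeasurableSet.univ]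
    · refine MeasurableSet.iInter fun i => MeasurableSet.iInter fun j => ?_
      by_cases hij : i < j
      · by_cases hs2 : σ i < σ j
        · simp [hs2]
        · simp only [hij, true_implies, hs2, imp_false]
          have h5 : Measurable (fun x : Fin k → ℝ => x (σ i)) := measurable_pi_apply _
          have h6 : Measurable (fun x : Fin k → ℝ => x (σ j)) := measurable_pi_apply _
          exact (measurableSet_eq_fun h5 h6).compl
      · simp only [hij, false_implies, Set.ofPred_true, MeasurableSet.univ]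
  · have h7 : Measurable (fun x : Fin k → ℝ => x ∘ σ) :=
      measurable_pi_lambda _ fun i => measurable_pi_apply (σ i)
    exact h7 hs

theorem measurable_afterArrival {m : ℕ} :
    Measurable (fun p : (Fin (m + 1) → ℝ) × ℝ × ℝ => afterArrival p.1 p.2.1) := by
  unfold afterArrival
  have h : Measurable (fun p : (Fin (m + 1) → ℝ) × ℝ × ℝ =>
      Function.update p.1 0 (p.1 0 + p.2.1)) := ?_
  · exact measurable_rearr.comp h
  refine measurable_pi_lambda _ fun i => ?_
  by_cases hi : i = 0
  · subst hi
    simp only [Function.update_self]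
    fun_prop
  · simp only [Function.update_of_ne hi]
    fun_prop

theorem measurable_next {m : ℕ} : Measurable (next (m := m)) := by
  refine measurable_pi_lambda _ fun i => ?_
  unfold next
  exact (((measurable_pi_apply i).comp measurable_afterArrival).sub (by fun_prop)).max
    measurable_const

theorem measurable_family {m : ℕ} : Measurable (family (m := m)) := by
  refine measurable_pi_lambda _ fun i => ?_
  unfold family
  refine Fin.lastCases ?_ (fun j => ?_) i
  · simp only [Fin.snoc_last]
    fun_prop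
  · simp only [Fin.snoc_castSucc]
    have h0 := (measurable_pi_apply (0 : Fin (m + 1))).comp (measurable_afterArrival (m := m))
    have hj := (measurable_pi_apply j).comp (measurable_afterArrival (m := m))
    by_cases h : j = 0
    · simp only [h, if_true]
      exact h0
    · simp only [h, if_false]
      exact hj.sub h0

/-! ### The example -/

/-- the short interarrival time `1 / (m + 1)` -/
noncomputable def sh (m : ℕ) : ℝ := 1 / ((m : ℝ) + 1)

/-- law of the service time -/
noncomputable def lawS : Measure ℝ := Measure.dirac 1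

/-- law of the interarrival time -/
noncomputable def lawT (m : ℕ) : Measure ℝ :=
  (1 / 2 : ENNReal) • Measure.dirac (sh m) + (1 / 2 : ENNReal) • Measure.dirac 1

/-- the invariant set of workload vectors -/
def good (m : ℕ) : Set (Fin (m + 1) → ℝ) :=
  {w | Monotone w ∧ ∀ i, 0 ≤ w i ∧ w i ≤ (i : ℕ) * sh m}

theorem sh_pos (m : ℕ) : 0 < sh m := by unfold sh; positivity

theorem sh_mul (m : ℕ) : ((m : ℝ) + 1) * sh m = 1 := by unfold sh; field_simp

theorem sh_le (m : ℕ) : sh m ≤ 1 := by
  have h := sh_mul m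
  have h1 := sh_pos m
  have h2 : (0 : ℝ) ≤ m := Nat.cast_nonneg m
  nlinarith

theorem afterArrival_good {m : ℕ} {w : Fin (m + 1) → ℝ} (hw : w ∈ good m) :
    afterArrival w 1 = Fin.snoc (α := fun _ => ℝ) (fun i : Fin m => w i.succ) 1 := by
  obtain ⟨hmono, hb⟩ := hw
  have h0 : w 0 = 0 := by
    have := hb 0
    simp at this
    linarith [this.1, this.2]
  have hle1 : ∀ i, w i ≤ 1 := by
    intro i
    have h1 := (hb i).2
    have h2 : ((i : ℕ) : ℝ) ≤ (m : ℝ) + 1 := by
      have := i.2
      have h3 : ((i : ℕ) : ℝ) ≤ ((m + 1 : ℕ) : ℝ) := by exact_mod_cast this.le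
      push_cast at h3
      exact h3
    have h3 := sh_mul m
    have h4 := sh_pos m
    nlinarith
  have key : (Function.update w 0 (w 0 + 1)) ∘ (finRotate (m + 1)) =
      Fin.snoc (α := fun _ => ℝ) (fun i : Fin m => w i.succ) 1 := by
    funext i
    refine Fin.lastCases ?_ (fun j => ?_) i
    · simp [h0]
    · simp only [Function.comp, finRotate_apply, Fin.snoc_castSucc, Fin.coeSucc_eq_succ]
      rw [Function.update_of_ne (Fin.succ_ne_zero j)]
  have hm : Monotone ((Function.update w 0 (w 0 + 1)) ∘ (finRotate (m + 1))) := by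
    rw [key]
    intro a b hab
    induction b using Fin.lastCases with
    | last =>
      simp only [Fin.snoc_last]
      induction a using Fin.lastCases with
      | last => simp
      | cast j => simp only [Fin.snoc_castSucc]; exact hle1 _
    | cast b =>
      induction a using Fin.lastCases with
      | last =>
        exfalso
        exact absurd hab (not_le.2 (Fin.castSucc_lt_last b))
      | cast a =>
        simp only [Fin.snoc_castSucc]
        exact hmono (Fin.succ_le_succ_iff.2 (Fin.castSucc_le_castSucc_iff.1 hab))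
  unfold afterArrival rearr
  rw [← Tuple.comp_sort_eq_comp_iff_monotone.2 hm, key]

theorem next_good {m : ℕ} {w : Fin (m + 1) → ℝ} (hw : w ∈ good m) {t : ℝ} (ht : sh m ≤ t) :
    next (w, 1, t) ∈ good m := by
  have h4 := sh_pos m
  unfold next
  simp only
  rw [afterArrival_good hw]
  obtain ⟨hmono, hb⟩ := hw
  constructor
  · intro a b hab
    refine max_le_max ?_ le_rfl
    refine sub_le_sub_right ?_ _
    induction b using Fin.lastCases with
    | last =>
      simp only [Fin.snoc_last]
      induction a using Fin.lastCases with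
      | last => simp
      | cast j =>
        simp only [Fin.snoc_castSucc]
        have h1 := (hb j.succ).2
        have h2 : ((j.succ : ℕ) : ℝ) ≤ (m : ℝ) + 1 := by
          have := j.succ.2
          have h3 : ((j.succ : ℕ) : ℝ) ≤ ((m + 1 : ℕ) : ℝ) := by exact_mod_cast this.le
          push_cast at h3
          exact h3
        have h3 := sh_mul m
        nlinarith
    | cast b =>
      induction a using Fin.lastCases with
      | last =>
        exfalso
        exact absurd hab (not_le.2 (Fin.castSucc_lt_last b))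
      | cast a =>
        simp only [Fin.snoc_castSucc]
        exact hmono (Fin.succ_le_succ_iff.2 (Fin.castSucc_le_castSucc_iff.1 hab))
  · intro i
    refine ⟨le_max_right _ _, max_le ?_ (by positivity)⟩
    induction i using Fin.lastCases with
    | last =>
      simp only [Fin.snoc_last, Fin.val_last]
      have h3 := sh_mul m
      nlinarith
    | cast j =>
      simp only [Fin.snoc_castSucc, Fin.val_castSucc]
      have h1 := (hb j.succ).2
      simp only [Fin.val_succ] at h1
      push_cast at h1
      nlinarith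

/-- two workload vectors agree from index `j` on -/
def agree {m : ℕ} (j : ℕ) (w w' : Fin (m + 1) → ℝ) : Prop := ∀ i : Fin (m + 1), j ≤ i → w i = w' i

theorem next_agree {m : ℕ} {w w' : Fin (m + 1) → ℝ} (hw : w ∈ good m) (hw' : w' ∈ good m)
    {j : ℕ} (h : agree (j + 1) w w') (t : ℝ) : agree j (next (w, 1, t)) (next (w', 1, t)) := by
  intro i hi
  unfold next
  simp only
  rw [afterArrival_good hw, afterArrival_good hw']
  induction i using Fin.lastCases with
  | last => simp
  | cast i =>
    simp only [Fin.snoc_castSucc]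
    rw [h i.succ (by simp only [Fin.val_succ]; simp only [Fin.val_castSucc] at hi; omega)]

instance (m : ℕ) : IsProbabilityMeasure (lawT m) := by
  constructor
  unfold lawT
  simp [ENNReal.inv_two_add_inv_two]

instance : IsProbabilityMeasure lawS := by unfold lawS; infer_instance

theorem stepLaw_add {m : ℕ} (π π' : Measure (Fin (m + 1) → ℝ)) [IsFiniteMeasure π]
    [IsFiniteMeasure π'] : stepLaw lawS (lawT m) (π + π') =
      stepLaw lawS (lawT m) π + stepLaw lawS (lawT m) π' := by
  unfold stepLaw
  rw [Measure.add_prod, Measure.map_add _ _ measurable_next]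

theorem stepLaw_smul {m : ℕ} (c : ENNReal) (π : Measure (Fin (m + 1) → ℝ)) [IsFiniteMeasure π] :
    stepLaw lawS (lawT m) (c • π) = c • stepLaw lawS (lawT m) π := by
  unfold stepLaw
  rw [Measure.prod_smul_left, Measure.map_smul]

theorem stepLaw_dirac {m : ℕ} (w : Fin (m + 1) → ℝ) :
    stepLaw lawS (lawT m) (Measure.dirac w) =
      (1 / 2 : ENNReal) • Measure.dirac (next (w, 1, sh m)) +
      (1 / 2 : ENNReal) • Measure.dirac (next (w, 1, 1)) := by
  unfold stepLaw lawS lawT
  rw [Measure.prod_add, Measure.prod_add, Measure.prod_smul_right, Measure.prod_smul_right,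
    Measure.prod_smul_right, Measure.prod_smul_right, Measure.dirac_prod_dirac,
    Measure.dirac_prod_dirac, Measure.dirac_prod_dirac, Measure.dirac_prod_dirac,
    Measure.map_add _ _ measurable_next, Measure.map_smul, Measure.map_smul,
    Measure.map_dirac' measurable_next, Measure.map_dirac' measurable_next]

instance {m : ℕ} (π : Measure (Fin (m + 1) → ℝ)) [IsProbabilityMeasure π] :
    IsProbabilityMeasure (stepLaw lawS (lawT m) π) :=
  Measure.isProbabilityMeasure_map measurable_next.aemeasurable

theorem iter_prob {m : ℕ} (n : ℕ) : ∀ (π : Measure (Fin (m + 1) → ℝ)) [IsProbabilityMeasure π],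
    IsProbabilityMeasure ((stepLaw lawS (lawT m))^[n] π) := by
  induction n with
  | zero => intro π _; simpa
  | succ n ih =>
    intro π _
    rw [Function.iterate_succ, Function.comp]
    exact ih _

theorem iter_mix {m : ℕ} (n : ℕ) : ∀ (π π' : Measure (Fin (m + 1) → ℝ)) [IsProbabilityMeasure π]
    [IsProbabilityMeasure π'], (stepLaw lawS (lawT m))^[n] ((1 / 2 : ENNReal) • π +
      (1 / 2 : ENNReal) • π') = (1 / 2 : ENNReal) • (stepLaw lawS (lawT m))^[n] π +
      (1 / 2 : ENNReal) • (stepLaw lawS (lawT m))^[n] π' := by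
  induction n with
  | zero => intro π π' _ _; simp
  | succ n ih =>
    intro π π' _ _
    have h1 : IsFiniteMeasure ((1 / 2 : ENNReal) • π) := Measure.smul_finite _ (by simp)
    have h2 : IsFiniteMeasure ((1 / 2 : ENNReal) • π') := Measure.smul_finite _ (by simp)
    simp only [Function.iterate_succ, Function.comp]
    rw [stepLaw_add, stepLaw_smul, stepLaw_smul, ih]

theorem iter_succ_dirac {m : ℕ} (n : ℕ) (w : Fin (m + 1) → ℝ) :
    (stepLaw lawS (lawT m))^[n + 1] (Measure.dirac w) =
      (1 / 2 : ENNReal) • (stepLaw lawS (lawT m))^[n] (Measure.dirac (next (w, 1, sh m))) +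
      (1 / 2 : ENNReal) • (stepLaw lawS (lawT m))^[n] (Measure.dirac (next (w, 1, 1))) := by
  rw [Function.iterate_succ, Function.comp, stepLaw_dirac, iter_mix]

theorem iter_agree {m : ℕ} (n : ℕ) : ∀ (j : ℕ) (w w' : Fin (m + 1) → ℝ), w ∈ good m →
    w' ∈ good m → agree j w w' → j ≤ n →
    (stepLaw lawS (lawT m))^[n] (Measure.dirac w) =
      (stepLaw lawS (lawT m))^[n] (Measure.dirac w') := by
  induction n with
  | zero =>
    intro j w w' _ _ h hj
    have : w = w' := funext fun i => h i (by omega)
    rw [this]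
  | succ n ih =>
    intro j w w' hw hw' h hj
    rw [iter_succ_dirac, iter_succ_dirac]
    have h' : agree (j - 1 + 1) w w' := fun i hi => h i (by omega)
    rw [ih (j - 1) _ _ (next_good hw le_rfl) (next_good hw' le_rfl) (next_agree hw hw' h' _)
      (by omega), ih (j - 1) _ _ (next_good hw (sh_le m)) (next_good hw' (sh_le m))
      (next_agree hw hw' h' _) (by omega)]

theorem zero_good (m : ℕ) : (0 : Fin (m + 1) → ℝ) ∈ good m := by
  have := sh_pos m
  refine ⟨monotone_const, fun i => ⟨le_rfl, ?_⟩⟩
  simp only [Pi.zero_apply]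
  positivity

/-- the stationary law of the example -/
noncomputable def stat (m : ℕ) : Measure (Fin (m + 1) → ℝ) :=
  (stepLaw lawS (lawT m))^[m + 1] (Measure.dirac 0)

theorem iter_eq_stat {m : ℕ} {w : Fin (m + 1) → ℝ} (hw : w ∈ good m) :
    (stepLaw lawS (lawT m))^[m + 1] (Measure.dirac w) = stat m :=
  iter_agree (m + 1) (m + 1) w 0 hw (zero_good m) (fun i hi => absurd i.2 (by omega)) le_rfl

theorem half_add_half {m : ℕ} (π : Measure (Fin (m + 1) → ℝ)) :
    (1 / 2 : ENNReal) • π + (1 / 2 : ENNReal) • π = π := by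
  rw [← add_smul]
  simp [ENNReal.inv_two_add_inv_two]

theorem stat_inv (m : ℕ) : stepLaw lawS (lawT m) (stat m) = stat m := by
  have h : stepLaw lawS (lawT m) (stat m) =
      (stepLaw lawS (lawT m))^[m + 1 + 1] (Measure.dirac 0) := by
    unfold stat
    exact (Function.iterate_succ_apply' _ _ _).symm
  rw [h, iter_succ_dirac, iter_eq_stat (next_good (zero_good m) le_rfl),
    iter_eq_stat (next_good (zero_good m) (sh_le m)), half_add_half]

theorem iter_const (m : ℕ) (n : ℕ) (hn : m + 1 ≤ n) :
    (stepLaw lawS (lawT m))^[n] (Measure.dirac 0) = stat m := by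
  induction n, hn using Nat.le_induction with
  | base => rfl
  | succ n _ ih => rw [Function.iterate_succ_apply', ih, stat_inv]

theorem stat_stationary (m : ℕ) : IsStationary lawS (lawT m) (stat m) where
  prob := iter_prob _ _
  invariant := stat_inv m
  limit := by
    intro f
    refine tendsto_const_nhds.congr' ?_
    filter_upwards [eventually_ge_atTop (m + 1)] with n hn
    rw [iter_const m n hn]

theorem next_one {m : ℕ} {w : Fin (m + 1) → ℝ} (hw : w ∈ good m) : next (w, 1, 1) = 0 := by
  funext i
  have h4 := sh_pos m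
  unfold next
  simp only
  rw [afterArrival_good hw]
  induction i using Fin.lastCases with
  | last => simp
  | cast i =>
    simp only [Fin.snoc_castSucc, Pi.zero_apply]
    refine max_eq_right ?_
    have h1 := (hw.2 i.succ).2
    have h2 : ((i.succ : ℕ) : ℝ) ≤ (m : ℝ) + 1 := by
      have := i.succ.2
      have h3 : ((i.succ : ℕ) : ℝ) ≤ ((m + 1 : ℕ) : ℝ) := by exact_mod_cast this.le
      push_cast at h3
      exact h3
    have h3 := sh_mul m
    nlinarith

/-- the busiest state -/
noncomputable def busy (m : ℕ) : Fin (m + 1) → ℝ := fun i => (i : ℕ) * sh m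

theorem busy_good (m : ℕ) : busy m ∈ good m := by
  have h4 := sh_pos m
  refine ⟨fun a b hab => ?_, fun i => ⟨by unfold busy; positivity, le_rfl⟩⟩
  unfold busy
  have : ((a : ℕ) : ℝ) ≤ (b : ℕ) := by exact_mod_cast hab
  exact mul_le_mul_of_nonneg_right this h4.le

theorem next_busy (m : ℕ) : next (busy m, 1, sh m) = busy m := by
  funext i
  have h4 := sh_pos m
  have h3 := sh_mul m
  unfold next
  simp only
  rw [afterArrival_good (busy_good m)]
  have h5 : 0 ≤ busy m i := by unfold busy; positivity
  have h6 : (Fin.snoc (α := fun _ => ℝ) (fun i : Fin m => busy m i.succ) (1 : ℝ) i : ℝ) - sh m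
      = busy m i := by
    induction i using Fin.lastCases with
    | last =>
      simp only [Fin.snoc_last, busy, Fin.val_last]
      linarith
    | cast i =>
      simp only [Fin.snoc_castSucc, busy, Fin.val_succ, Fin.val_castSucc]
      push_cast
      ring
  rw [h6]
  exact max_eq_left h5

theorem iter_zero_mass (m n : ℕ) :
    (1 / 2 : ENNReal) ^ n ≤
      (stepLaw lawS (lawT m))^[n] (Measure.dirac (0 : Fin (m + 1) → ℝ)) {0} := by
  induction n with
  | zero => simp
  | succ n ih =>
    rw [iter_succ_dirac, next_one (zero_good m), pow_succ', Measure.add_apply,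
      Measure.smul_apply, Measure.smul_apply, smul_eq_mul, smul_eq_mul]
    exact le_trans (mul_le_mul_right ih _) le_add_self

theorem iter_busy_mass (m n : ℕ) :
    (1 / 2 : ENNReal) ^ n ≤ (stepLaw lawS (lawT m))^[n] (Measure.dirac (busy m)) {busy m} := by
  induction n with
  | zero => simp
  | succ n ih =>
    rw [iter_succ_dirac, next_busy, pow_succ', Measure.add_apply,
      Measure.smul_apply, Measure.smul_apply, smul_eq_mul, smul_eq_mul]
    exact le_trans (mul_le_mul_right ih _) le_self_add

theorem iter_good (m n : ℕ) : ∀ w : Fin (m + 1) → ℝ, w ∈ good m →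
    (stepLaw lawS (lawT m))^[n] (Measure.dirac w) (good m)ᶜ = 0 := by
  induction n with
  | zero =>
    intro w hw
    simp [Measure.dirac_apply, hw]
  | succ n ih =>
    intro w hw
    rw [iter_succ_dirac, Measure.add_apply, Measure.smul_apply, Measure.smul_apply,
      ih _ (next_good hw le_rfl), ih _ (next_good hw (sh_le m))]
    simp

theorem joint_null (m : ℕ) :
    ((stat m).prod (lawS.prod (lawT m)))
      {p : (Fin (m + 1) → ℝ) × ℝ × ℝ | ¬ (p.1 ∈ good m ∧ p.2.1 = 1)} = 0 := by
  have hp : IsProbabilityMeasure (stat m) := iter_prob _ _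
  have hsub : {p : (Fin (m + 1) → ℝ) × ℝ × ℝ | ¬ (p.1 ∈ good m ∧ p.2.1 = 1)} ⊆
      ((good m)ᶜ ×ˢ Set.univ) ∪ (Set.univ ×ˢ (({1} : Set ℝ)ᶜ ×ˢ (Set.univ : Set ℝ))) := by
    rintro ⟨w, s, t⟩ h
    simp only [Set.mem_ofPred_eq, not_and_or] at h
    rcases h with h | h
    · exact Or.inl ⟨h, trivial⟩
    · exact Or.inr ⟨trivial, h, trivial⟩
  refine measure_mono_null hsub (measure_union_null ?_ ?_)
  · rw [Measure.prod_prod, show stat m (good m)ᶜ = 0 from iter_good m _ _ (zero_good m), zero_mul]
  · rw [Measure.prod_prod, Measure.prod_prod]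
    have : lawS ({1} : Set ℝ)ᶜ = 0 := by
      unfold lawS
      rw [Measure.dirac_apply' _ (measurableSet_singleton _).compl]
      simp
    rw [this, zero_mul, mul_zero]

/-- the set where `V₁ ≥ 1 / k` -/
def setF (m : ℕ) : Set (Fin (m + 2) → ℝ) := {x | sh m ≤ x 0}

/-- the set where `V_k - V₁ ≥ 1` -/
def setG (m : ℕ) : Set (Fin (m + 2) → ℝ) := {x | 1 ≤ x (Fin.castSucc (Fin.last m))}

theorem measurable_setF (m : ℕ) : MeasurableSet (setF m) :=
  measurableSet_le measurable_const (measurable_pi_apply _)

theorem measurable_setG (m : ℕ) : MeasurableSet (setG m) :=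
  measurableSet_le measurable_const (measurable_pi_apply _)

theorem family_zero {m : ℕ} (hm : 1 ≤ m) {w : Fin (m + 1) → ℝ} (hw : w ∈ good m) (t : ℝ) :
    family (w, 1, t) 0 = w 1 := by
  obtain ⟨m, rfl⟩ : ∃ m', m = m' + 1 := ⟨m - 1, by omega⟩
  unfold family
  have h0 : (0 : Fin (m + 1 + 2)) = Fin.castSucc 0 := rfl
  rw [h0, Fin.snoc_castSucc]
  simp only [if_true]
  rw [afterArrival_good hw]
  have h1 : (0 : Fin (m + 1 + 1)) = Fin.castSucc 0 := rfl
  rw [h1, Fin.snoc_castSucc]
  rfl

theorem family_last {m : ℕ} (hm : 1 ≤ m) {w : Fin (m + 1) → ℝ} (hw : w ∈ good m) (t : ℝ) :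
    family (w, 1, t) (Fin.castSucc (Fin.last m)) = 1 - w 1 := by
  obtain ⟨m, rfl⟩ : ∃ m', m = m' + 1 := ⟨m - 1, by omega⟩
  unfold family
  rw [Fin.snoc_castSucc]
  have hne : Fin.last (m + 1) ≠ 0 := Fin.last_pos.ne'
  simp only [hne, if_false]
  rw [afterArrival_good hw]
  have h1 : (0 : Fin (m + 1 + 1)) = Fin.castSucc 0 := rfl
  rw [h1, Fin.snoc_castSucc, Fin.snoc_last]
  rfl

theorem mass_F {m : ℕ} (hm : 1 ≤ m) :
    0 < ((stat m).prod (lawS.prod (lawT m))).real (family ⁻¹' setF m) := by
  have hp : IsProbabilityMeasure (stat m) := iter_prob _ _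
  have h1 : ({busy m} : Set (Fin (m + 1) → ℝ)) ×ˢ (({1} : Set ℝ) ×ˢ (Set.univ : Set ℝ)) ⊆
      family ⁻¹' setF m := by
    rintro ⟨w, s, t⟩ ⟨hw, hs, -⟩
    simp only [Set.mem_singleton_iff] at hw hs
    subst hw hs
    simp only [Set.mem_preimage, setF, Set.mem_ofPred_eq]
    rw [family_zero hm (busy_good m)]
    unfold busy
    obtain ⟨m, rfl⟩ : ∃ m', m = m' + 1 := ⟨m - 1, by omega⟩
    simp
  have h2 : 0 < ((stat m).prod (lawS.prod (lawT m)))
      (({busy m} : Set (Fin (m + 1) → ℝ)) ×ˢ (({1} : Set ℝ) ×ˢ (Set.univ : Set ℝ))) := by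
    rw [Measure.prod_prod, Measure.prod_prod, measure_univ, mul_one]
    have h3 : lawS ({1} : Set ℝ) = 1 := by unfold lawS; simp
    rw [h3, mul_one]
    refine lt_of_lt_of_le ?_ (le_trans (iter_busy_mass m (m + 1)) (le_of_eq ?_))
    · exact ENNReal.pow_pos (by simp) _
    · rw [iter_eq_stat (busy_good m)]
  exact ENNReal.toReal_pos (lt_of_lt_of_le h2 (measure_mono h1)).ne' (measure_ne_top _ _)

theorem mass_G {m : ℕ} (hm : 1 ≤ m) :
    0 < ((stat m).prod (lawS.prod (lawT m))).real (family ⁻¹' setG m) := by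
  have hp : IsProbabilityMeasure (stat m) := iter_prob _ _
  have h1 : ({0} : Set (Fin (m + 1) → ℝ)) ×ˢ (({1} : Set ℝ) ×ˢ (Set.univ : Set ℝ)) ⊆
      family ⁻¹' setG m := by
    rintro ⟨w, s, t⟩ ⟨hw, hs, -⟩
    simp only [Set.mem_singleton_iff] at hw hs
    subst hw hs
    simp only [Set.mem_preimage, setG, Set.mem_ofPred_eq]
    rw [family_last hm (zero_good m)]
    simp
  have h2 : 0 < ((stat m).prod (lawS.prod (lawT m)))
      (({0} : Set (Fin (m + 1) → ℝ)) ×ˢ (({1} : Set ℝ) ×ˢ (Set.univ : Set ℝ))) := by
    rw [Measure.prod_prod, Measure.prod_prod, measure_univ, mul_one]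
    have h3 : lawS ({1} : Set ℝ) = 1 := by unfold lawS; simp
    rw [h3, mul_one]
    exact lt_of_lt_of_le (ENNReal.pow_pos (by simp) _) (iter_zero_mass m (m + 1))
  exact ENNReal.toReal_pos (lt_of_lt_of_le h2 (measure_mono h1)).ne' (measure_ne_top _ _)

theorem mass_FG {m : ℕ} (hm : 1 ≤ m) :
    ((stat m).prod (lawS.prod (lawT m))) (family ⁻¹' setF m ∩ family ⁻¹' setG m) = 0 := by
  refine measure_mono_null ?_ (joint_null m)
  rintro ⟨w, s, t⟩ ⟨h1, h2⟩
  simp only [Set.mem_ofPred_eq]
  rintro ⟨hw, hs⟩
  subst hs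
  simp only [Set.mem_preimage, setF, setG, Set.mem_ofPred_eq] at h1 h2
  rw [family_zero hm hw] at h1
  rw [family_last hm hw] at h2
  linarith [sh_pos m]

theorem not_associated {m : ℕ} (hm : 1 ≤ m) :
    ¬ Associated ((stat m).prod (lawS.prod (lawT m))) family := by
  have hp : IsProbabilityMeasure (stat m) := iter_prob _ _
  intro h
  have hF : Measurable ((setF m).indicator (fun _ => (1 : ℝ))) :=
    measurable_const.indicator (measurable_setF m)
  have hG : Measurable ((setG m).indicator (fun _ => (1 : ℝ))) :=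
    measurable_const.indicator (measurable_setG m)
  have hb : ∀ s : Set (Fin (m + 2) → ℝ), ∃ C : ℝ, ∀ x, |s.indicator (fun _ => (1 : ℝ)) x| ≤ C := by
    intro s
    refine ⟨1, fun x => ?_⟩
    by_cases hx : x ∈ s <;> simp [hx]
  have hmonoF : Monotone ((setF m).indicator (fun _ => (1 : ℝ))) := by
    intro x y hxy
    by_cases hx : x ∈ setF m
    · have hy : y ∈ setF m := le_trans (show sh m ≤ x 0 from hx) (hxy 0)
      simp [hx, hy]
    · simp only [hx, not_false_eq_true, Set.indicator_of_notMem]
      exact Set.indicator_nonneg (fun _ _ => zero_le_one) _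
  have hmonoG : Monotone ((setG m).indicator (fun _ => (1 : ℝ))) := by
    intro x y hxy
    by_cases hx : x ∈ setG m
    · have hy : y ∈ setG m := le_trans (show (1 : ℝ) ≤ x _ from hx) (hxy _)
      simp [hx, hy]
    · simp only [hx, not_false_eq_true, Set.indicator_of_notMem]
      exact Set.indicator_nonneg (fun _ _ => zero_le_one) _
  have h1 := h _ _ hF hG (hb _) (hb _) hmonoF hmonoG
  have e1 : ∫ ω, (setF m).indicator (fun _ => (1 : ℝ)) (family ω)
      ∂((stat m).prod (lawS.prod (lawT m))) =
      ((stat m).prod (lawS.prod (lawT m))).real (family ⁻¹' setF m) := by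
    rw [← integral_indicator_one (measurable_family (measurable_setF m))]
    rfl
  have e2 : ∫ ω, (setG m).indicator (fun _ => (1 : ℝ)) (family ω)
      ∂((stat m).prod (lawS.prod (lawT m))) =
      ((stat m).prod (lawS.prod (lawT m))).real (family ⁻¹' setG m) := by
    rw [← integral_indicator_one (measurable_family (measurable_setG m))]
    rfl
  have e3 : ∫ ω, (setF m).indicator (fun _ => (1 : ℝ)) (family ω) *
      (setG m).indicator (fun _ => (1 : ℝ)) (family ω)
      ∂((stat m).prod (lawS.prod (lawT m))) = 0 := by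
    refine integral_eq_zero_of_ae ?_
    have h5 := mass_FG hm
    rw [measure_eq_zero_iff_ae_notMem] at h5
    filter_upwards [h5] with ω hω
    by_cases h6 : family ω ∈ setF m
    · have h7 : family ω ∉ setG m := fun h8 => hω ⟨h6, h8⟩
      simp [h7]
    · simp [h6]
  rw [e1, e2, e3] at h1
  have := mul_pos (mass_F hm) (mass_G hm)
  linarith

theorem mean_T (m : ℕ) : Integrable (fun x : ℝ => x) (lawT m) ∧
    ∫ x, x ∂(lawT m) = (sh m + 1) / 2 := by
  have h1 : Integrable (fun x : ℝ => x) ((1 / 2 : ENNReal) • Measure.dirac (sh m)) :=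
    (integrable_dirac (by simp)).smul_measure (by simp)
  have h2 : Integrable (fun x : ℝ => x) ((1 / 2 : ENNReal) • Measure.dirac (1 : ℝ)) :=
    (integrable_dirac (by simp)).smul_measure (by simp)
  refine ⟨h1.add_measure h2, ?_⟩
  unfold lawT
  rw [integral_add_measure h1 h2, integral_smul_measure, integral_smul_measure, integral_dirac,
    integral_dirac]
  simp
  ring

/-- **For every number `k = m + 1 ≥ 2` of servers there is a stationary GI/GI/k system for which
the family `V₁, V₂ - V₁, …, V_k - V₁, -T` is not associated.** -/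
theorem result (m : ℕ) (hm : 1 ≤ m) :
    ∃ μS μT : Measure ℝ, IsProbabilityMeasure μS ∧ IsProbabilityMeasure μT ∧
      (∀ᵐ s ∂μS, 0 ≤ s) ∧ (∀ᵐ t ∂μT, 0 ≤ t) ∧
      Integrable (fun s : ℝ => s) μS ∧ Integrable (fun t : ℝ => t) μT ∧
      0 < ∫ s, s ∂μS ∧ 0 < ∫ t, t ∂μT ∧
      (∫ s, s ∂μS) / (((m : ℝ) + 1) * ∫ t, t ∂μT) < 1 ∧
      ∃ π : Measure (Fin (m + 1) → ℝ), IsStationary μS μT π ∧
        ¬ Associated (π.prod (μS.prod μT)) family := by
  have hsh := sh_pos m
  have hmul := sh_mul m
  have hT := mean_T m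
  have hS : ∫ s, s ∂lawS = 1 := by unfold lawS; simp
  refine ⟨lawS, lawT m, inferInstance, inferInstance, ?_, ?_, ?_, hT.1, ?_, ?_, ?_, stat m,
    stat_stationary m, not_associated hm⟩
  · unfold lawS
    exact (ae_dirac_iff (measurableSet_le measurable_const measurable_id)).2 zero_le_one
  · unfold lawT
    rw [ae_add_measure_iff]
    constructor
    · refine Measure.ae_smul_measure ?_ _
      exact (ae_dirac_iff (measurableSet_le measurable_const measurable_id)).2 hsh.le
    · refine Measure.ae_smul_measure ?_ _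
      exact (ae_dirac_iff (measurableSet_le measurable_const measurable_id)).2 zero_le_one
  · unfold lawS
    exact integrable_dirac (by simp)
  · rw [hS]; norm_num
  · rw [hT.2]; linarith
  · rw [hS, hT.2]
    have h2 : ((m : ℝ) + 1) * ((sh m + 1) / 2) = 1 + (m : ℝ) / 2 := by nlinarith
    rw [h2, div_lt_one (by positivity)]
    have : (1 : ℝ) ≤ m := by exact_mod_cast hm
    linarith

end Pool.Agent.Results.MP_d464c7_pr.NotAssociated
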